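import Pool.Agent.H750Z.PdMain

set_option autoImplicit false

namespace Pool.Agent.Results.MP_a29b63_ag.PeriodicPd

open Pool.Agent.H750Z Filter

universe u

/-- Over every field `K`, for every `c ≥ 1`, both for OI and for FI, there is a finitely generated
module `M` over `P` whose projective dimension is `c n` when `q ∣ n + 1` and `c n - 1` otherwise
(for a fixed `q ≥ 2` and all `n ≥ 2`); it agrees with no linear function for large `n`. -/
theorem result (K : Type u) [Field K] (c : ℕ) (hc : 1 ≤ c)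
    (Mor : ∀ m n : ℕ, (Fin m → Fin n) → Prop) (hMor : Mor = OI ∨ Mor = FI) :
    ∃ M : PMod Mor K c, M.FG ∧
      (∃ q : ℕ, 2 ≤ q ∧ ∀ n : ℕ, 2 ≤ n →
        M.pd n = ((if q ∣ n + 1 then c * n else c * n - 1 : ℕ) : WithBot ℕ∞)) ∧
      ¬ ∃ A B : ℤ, ∀ᶠ n : ℕ in atTop,
        ∃ k : ℕ, M.pd n = (k : WithBot ℕ∞) ∧ (k : ℤ) = A * n + B := by
  obtain ⟨M, h1, q, hq, h2⟩ := PdMain.main (K := K) (c := c) Mor
    (by
      rcases hMor with rfl | rfl
      · exact fun m n ε h => StrictMono.injective h
      · exact fun m n ε h => h)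
    (by
      rcases hMor with rfl | rfl
      · exact fun n j => Subsingleton.strictMono _
      · exact fun n j => Function.injective_of_subsingleton _) hc
  exact ⟨M, h1, ⟨q, hq, h2⟩, PdMain.nonlinear c q hc hq M.pd h2⟩

end Pool.Agent.Results.MP_a29b63_ag.PeriodicPd
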